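import Pool.Agent.R69.KM.All
import Pool.Agent.R69.KM.Row1
import Pool.Agent.R69.KM.Row
import Pool.Agent.R69.KM.Prm
import Pool.Agent.R69.KM.Ti
import Pool.Agent.R69.KM.Cm
import Pool.Agent.R69.KM.Inv
import Pool.Agent.R69.KM.Cmp
import Pool.Agent.R69.KM.Dom
import Pool.Agent.R69.KM.Fin
import Pool.Agent.R69.KM.Lat
import Pool.Agent.R69.KM.Face
import Pool.Agent.R69.KM.Sym
import Pool.Agent.R69.KM.Inc
import Pool.Agent.R69.KM.Dis
import Pool.Agent.R69.KM.Low
import Pool.Agent.R69.KM.Comb
import Pool.Agent.R69.KM.Geob
import Pool.Agent.R69.KM.Up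
import Pool.Agent.R69.KM.Geoa
import Pool.Agent.R69.KM.Detl
import Pool.Agent.R69.KM.Sat
import Pool.Agent.R69.KM.Fina
import Pool.Agent.R69.KM.Pos
import Pool.Agent.R69.KM.Str
import Pool.Agent.R69.KM.Key
import Pool.Agent.R69.KM.Opn
import Pool.Agent.R69.KM.Farp
import Pool.Agent.R69.KM.Nearp
import Pool.Agent.R69.KM.Ari
import Pool.Agent.R69.KM.Del
import Pool.Agent.R69.KM.Eq

/-!
# The faces of largest relative frequency in dimension two

The largest relative frequency of a face of two-dimensional continued fractions is attained exactly
at the unit triangles at integer distance one and two.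
-/

set_option autoImplicit false

open MeasureTheory

namespace Pool.Agent.Results.MP_8a8f75_nt.DimTwo

open Pool.Agent.R69.Klein Pool.Agent.R69.KM

/-- The Möbius measure `mob` on the space of two-dimensional continued fractions is invariant under
all linear automorphisms of `ℝ³`; the relative frequency of the unit triangle `TA` is positive and
finite; every polytope with integer vertices has at most the relative frequency of `TA`, with
equality exactly for the unit triangles at integer distance one or two (`Top`). -/
theorem result :
    Invariant (n := 2) mob ∧ 0 < mob (withFace TA) ∧ mob (withFace TA) < ⊤ ∧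
    ∀ F : Set (Sp 2), IsLatticePolytope F → mob (withFace F) ≤ mob (withFace TA) ∧
      (mob (withFace F) = mob (withFace TA) ↔ Top F) := by
  have hRow : S_ROW := Row.main Row1.main
  have hTi : S_TI := Ti.main hRow Prm.main
  have hCm : S_CM := Cm.main
  have hInv : S_INV := Inv.main hRow
  have hDom : S_DOM := Dom.main (Cmp.main hRow hCm)
  have hFace : S_FACE := Face.main Lat.main
  have hLow : S_LOW := Low.main (Sym.main hFace) Inc.main Dis.main hTi hCm
  have hUp : S_UP := Up.main Geob.main Comb.main hTi hCm
  have hSat : S_SAT := Sat.main hTi hCm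
  have hFina : S_FINA := Fina.main Geoa.main Detl.main hSat
  have hStr : S_STR := Str.main hFace Lat.main Detl.main hSat hFina Pos.main
  have hUnq : S_UNQ := Unq.main hInv Geoa.main hStr Key.main Opn.main Farp.main Nearp.main
    Ari.main Del.main
  exact all hInv hDom Fin.main hLow hUp hFina hUnq (Eq.main hInv)

end Pool.Agent.Results.MP_8a8f75_nt.DimTwo
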