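import Pool.Agent.R69.Klein2

/-!
# The largest relative frequency is attained at a totally unimodular face at integer distance one
-/

set_option autoImplicit false

open MeasureTheory

namespace Pool.Agent.Results.MP_8a8f75_nt.MaxUnimodular

open Pool.Agent.R69.Klein

/-- For every `n ≥ 2` and every measure `μ` on the space of `n`-dimensional continued fractions that
is invariant under all linear automorphisms of `ℝ^{n+1}` (such as a Möbius measure), there is a
totally unimodular configuration `Z` such that no polytope `F` with integer vertices has a larger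
relative frequency than the convex hull of `Z`. -/
theorem result (n : ℕ) (hn : 2 ≤ n) [MeasurableSpace (CF n)] (μ : Measure (CF n))
    (hμ : Invariant μ) :
    ∃ Z : Finset (Fin (n + 1) → ℤ), Unimod Z ∧ ∀ F : Set (Sp n), IsLatticePolytope F →
      μ (withFace F) ≤ μ (withFace (convexHull ℝ (toR '' (Z : Set (Fin (n + 1) → ℤ))))) := by
  classical
  let P : Finset (Finset (Fin (n + 1) → ℤ)) :=
    ((Fintype.piFinset fun _ : Fin (n + 1) => ({-1, 0, 1} : Finset ℤ)).powerset).filter
      (fun Z => Unimod Z)
  have hP : ∀ Z : Finset (Fin (n + 1) → ℤ), Unimod Z → Z ∈ P := by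
    intro Z hZ
    refine Finset.mem_filter.2 ⟨Finset.mem_powerset.2 ?_, hZ⟩
    intro z hz
    rw [Fintype.mem_piFinset]
    intro i
    have := hZ.coord hz i
    rw [abs_le] at this
    simp only [Finset.mem_insert, Finset.mem_singleton]
    omega
  obtain ⟨Z, hZP, hmax⟩ := Finset.exists_max_image P
    (fun Z => μ (withFace (convexHull ℝ (toR '' (Z : Set (Fin (n + 1) → ℤ))))))
    ⟨_, hP _ (unimod_std n)⟩
  refine ⟨Z, (Finset.mem_filter.1 hZP).2, ?_⟩
  intro F hF
  obtain ⟨Z', hZ', hle⟩ := reduction (by omega) hμ hF
  exact hle.trans (hmax Z' (hP Z' hZ'))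

end Pool.Agent.Results.MP_8a8f75_nt.MaxUnimodular
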