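import Pool.Agent.R69.Klein2

/-!
# Among all simplices the unimodular simplex has the largest relative frequency
-/

set_option autoImplicit false

open MeasureTheory

namespace Pool.Agent.Results.MP_8a8f75_nt.Simplices

open Pool.Agent.R69.Klein

/-- For every `n ≥ 2` and every measure `μ` on the space of `n`-dimensional continued fractions that
is invariant under all linear automorphisms of `ℝ^{n+1}` (such as a Möbius measure), no `n`-simplex
with integer vertices `v₀, …, v_n` has a larger relative frequency than the simplex with vertices
the standard basis vectors. -/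
theorem result (n : ℕ) (hn : 2 ≤ n) [MeasurableSpace (CF n)] (μ : Measure (CF n))
    (hμ : Invariant μ) (v : Fin (n + 1) → Sp n) (hv : ∀ i, IsInt (v i))
    (hli : LinearIndependent ℝ v) :
    μ (withFace (convexHull ℝ (Set.range v))) ≤
      μ (withFace (convexHull ℝ
        (Set.range fun i : Fin (n + 1) => (Pi.single i 1 : Fin (n + 1) → ℝ)))) := by
  classical
  have hsingle : ∀ i : Fin (n + 1), (Pi.single i 1 : Fin (n + 1) → ℝ) =
      toR (Pi.single i 1 : Fin (n + 1) → ℤ) := by
    intro i
    funext j
    by_cases h : j = i
    · subst h; simp [toR]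
    · simp [toR, h]
  have hp : ∀ i, IsInt (toR (Pi.single i 1 : Fin (n + 1) → ℤ)) ∧
      autOf hli (toR (Pi.single i 1 : Fin (n + 1) → ℤ)) ∈ convexHull ℝ (Set.range v) := by
    intro i
    refine ⟨isInt_toR _, ?_⟩
    rw [autOf_single]
    exact subset_convexHull ℝ _ ⟨i, rfl⟩
  have h1 := measure_le hμ (autOf hli) (isInt_autOf hli hv) (F := convexHull ℝ (Set.range v))
    (p := fun i => toR (Pi.single i 1 : Fin (n + 1) → ℤ)) li_std hp
  refine h1.trans (le_of_eq ?_)
  congr 2
  -- the two convex hulls agree
  have himg : convexHull ℝ (Set.range v) =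
      autOf hli '' convexHull ℝ (Set.range fun i => toR (Pi.single i 1 : Fin (n + 1) → ℤ)) := by
    have h2 := LinearMap.image_convexHull (autOf hli).toLinearMap
      (Set.range fun i => toR (Pi.single i 1 : Fin (n + 1) → ℤ))
    have h3 : (autOf hli).toLinearMap '' (Set.range fun i =>
        toR (Pi.single i 1 : Fin (n + 1) → ℤ)) = Set.range v := by
      rw [← Set.range_comp]
      congr 1
      funext i
      exact autOf_single hli i
    rw [h3] at h2
    exact h2.symm
  apply Set.Subset.antisymm
  · apply convexHull_min _ (convex_convexHull ℝ _)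
    rintro x ⟨_, hx⟩
    rw [himg] at hx
    obtain ⟨y, hy, hyx⟩ := hx
    have : y = x := (autOf hli).injective hyx
    subst this
    simp only [hsingle]
    exact hy
  · apply convexHull_mono
    rintro _ ⟨i, rfl⟩
    simp only [hsingle]
    exact hp i

end Pool.Agent.Results.MP_8a8f75_nt.Simplices
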