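import Pool.Agent.R723.KT.TwoDim
import Pool.Agent.R723.KT.Final
import Pool.Agent.R723.KT.Defs2
import Pool.Agent.R723.KT.CV
import Pool.Agent.R723.KT.LAT
import Pool.Agent.R723.KT.AREA
import Pool.Agent.R723.KT.FIB
import Pool.Agent.R723.KT.SLICE
import Pool.Agent.R723.KT.SYM
import Pool.Agent.R723.KT.MEAS
import Pool.Agent.R723.KT.MARKS
import Pool.Agent.R723.KT.DISJ
import Pool.Agent.R723.KT.MM
import Pool.Agent.R723.KT.CORE
import Pool.Agent.R723.KT.FACE1
import Pool.Agent.R723.KT.FACE2
import Pool.Agent.R723.KT.PROJ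
import Pool.Agent.R723.KT.MINV
import Pool.Agent.R723.KT.EXIST

/-!
# In dimension two the unit triangle has the largest relative frequency
-/

set_option autoImplicit false

open MeasureTheory

namespace Pool.Agent.Results.MP_8a8f75_nt.TriangleMostFrequent

open Pool.Agent.R69.Klein Pool.Agent.R723.KT

/-- There is a Möbius measure on the space of two-dimensional continued fractions, and for every
Möbius measure and every polytope `F` with integer vertices the relative frequency of `F` is at
most the relative frequency of the unit triangle `A₁`. -/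
theorem result :
    (∃ (_ : MeasurableSpace (CF 2)) (μ : Measure (CF 2)), IsMoebius μ) ∧
    ∀ [MeasurableSpace (CF 2)] (μ : Measure (CF 2)), IsMoebius μ →
      ∀ F : Set (Sp 2), IsLatticePolytope F →
        μ (withFace F) ≤ μ (withFace (convexHull ℝ {![0, 0, 1], ![1, 0, 1], ![0, 1, 1]})) := by
  have hM := MEAS.taskMEAS
  have hL := LAT.taskLAT
  have hA := AREA.taskAREA
  have hF := FIB.taskFIB hL hA
  have hS := SLICE.taskSLICE hF
  have hMM := taskMM taskCV hS hM
  have hC := CORE.taskCORE SYM.taskSYM hM MARKS.taskMARKS taskDISJ hMM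
  refine ⟨taskEXIST (MINV.taskMINV PROJ.taskPROJ), ?_⟩
  intro _ μ hμ F hF
  obtain ⟨hinv, k, -, -, hk⟩ := hμ
  refine (TwoDim.twoDim μ hinv F hF).trans (max_le le_rfl ?_)
  exact Final.square_le_triangle hC FACE1.taskFACE1 FACE2.taskFACE2 hM μ k hk

end Pool.Agent.Results.MP_8a8f75_nt.TriangleMostFrequent
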