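import Pool.Agent.R69.Klein2

/-!
# In dimension two the largest relative frequency is attained at the unit triangle or the unit
square
-/

set_option autoImplicit false
set_option linter.unnecessarySeqFocus false
set_option linter.unusedTactic false
set_option linter.unreachableTactic false

open MeasureTheory

namespace Pool.Agent.Results.MP_8a8f75_nt.TwoDim

open Pool.Agent.R69.Klein

/-- the integer points of `A⁻¹ F` for a totally unimodular face -/
theorem transfer {Z : Finset (Fin 3 → ℤ)} (hZ : Unimod (n := 2) Z) (A : Sp 2 ≃ₗ[ℝ] Sp 2)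
    (hA : ∀ x, IsInt x → IsInt (A x)) (x : Sp 2) (hx : IsInt x) :
    A x ∈ convexHull ℝ (toR '' (Z : Set (Fin 3 → ℤ))) ↔ ∃ z ∈ Z, A x = toR z := by
  constructor
  · intro h
    obtain ⟨z, hz⟩ := exists_toR (hA x hx)
    refine ⟨z, hZ.2.2.1 z ?_, hz⟩
    rw [← hz]
    exact h
  · rintro ⟨z, hz, h⟩
    rw [h]
    exact subset_convexHull ℝ _ ⟨z, hz, rfl⟩

/-- the three coordinate changes -/
def A0 : Sp 2 ≃ₗ[ℝ] Sp 2 where
  toFun x := ![x 2 - x 0 - x 1, x 0, x 1]
  invFun y := ![y 1, y 2, y 0 + y 1 + y 2]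
  map_add' x y := by ext i; fin_cases i <;> simp <;> ring
  map_smul' c x := by ext i; fin_cases i <;> simp <;> ring
  left_inv x := by ext i; fin_cases i <;> simp <;> ring
  right_inv y := by ext i; fin_cases i <;> simp <;> ring

def A1 : Sp 2 ≃ₗ[ℝ] Sp 2 where
  toFun x := ![x 0, x 2 - x 0 - x 1, x 1]
  invFun y := ![y 0, y 2, y 0 + y 1 + y 2]
  map_add' x y := by ext i; fin_cases i <;> simp <;> ring
  map_smul' c x := by ext i; fin_cases i <;> simp <;> ring
  left_inv x := by ext i; fin_cases i <;> simp <;> ring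
  right_inv y := by ext i; fin_cases i <;> simp <;> ring

def A2 : Sp 2 ≃ₗ[ℝ] Sp 2 where
  toFun x := ![x 0, x 1, x 2 - x 0 - x 1]
  invFun y := ![y 0, y 1, y 0 + y 1 + y 2]
  map_add' x y := by ext i; fin_cases i <;> simp <;> ring
  map_smul' c x := by ext i; fin_cases i <;> simp <;> ring
  left_inv x := by ext i; fin_cases i <;> simp <;> ring
  right_inv y := by ext i; fin_cases i <;> simp <;> ring


theorem measure_transfer [MeasurableSpace (CF 2)] {μ : Measure (CF 2)} (hμ : Invariant μ)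
    {Z : Finset (Fin 3 → ℤ)} (hZ : Unimod (n := 2) Z) (A : Sp 2 ≃ₗ[ℝ] Sp 2)
    (hA : ∀ x, IsInt x → IsInt (A x)) (hAs : ∀ x, IsInt x → IsInt (A.symm x)) {P : Set (Sp 2)}
    (hP : ∀ x, x ∈ P ↔ IsInt x ∧ ∃ z ∈ Z, A x = toR z) :
    μ (withFace (convexHull ℝ (toR '' (Z : Set (Fin 3 → ℤ))))) ≤
      μ (withFace (convexHull ℝ P)) := by
  have h1 := measure_le hμ A hA (F := convexHull ℝ (toR '' (Z : Set (Fin 3 → ℤ))))
    (p := fun i => A.symm (toR (Pi.single i 1 : Fin (2 + 1) → ℤ))) (li_map A.symm li_std)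
    (fun i => ⟨hAs _ (isInt_toR _), by
      rw [LinearEquiv.apply_symm_apply]
      exact subset_convexHull ℝ _ ⟨_, hZ.1 i, rfl⟩⟩)
  have h2 : {x | IsInt x ∧ A x ∈ convexHull ℝ (toR '' (Z : Set (Fin 3 → ℤ)))} = P := by
    ext x
    rw [hP]
    constructor
    · rintro ⟨hx, h⟩
      exact ⟨hx, (transfer hZ A hA x hx).1 h⟩
    · rintro ⟨hx, h⟩
      exact ⟨hx, (transfer hZ A hA x hx).2 h⟩
  rwa [h2] at h1

theorem isInt_vec (a b c : ℤ) : IsInt (n := 2) ![(a : ℝ), b, c] := by
  intro i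
  fin_cases i
  · exact ⟨a, rfl⟩
  · exact ⟨b, rfl⟩
  · exact ⟨c, rfl⟩

theorem isInt_A0 (x : Sp 2) (hx : IsInt x) : IsInt (A0 x) := by
  obtain ⟨z, rfl⟩ := exists_toR hx
  have : A0 (toR z) = ![((z 2 - z 0 - z 1 : ℤ) : ℝ), (z 0 : ℤ), (z 1 : ℤ)] := by
    ext i; fin_cases i <;> simp [A0, toR]
  rw [this]
  exact isInt_vec _ _ _

theorem isInt_A1 (x : Sp 2) (hx : IsInt x) : IsInt (A1 x) := by
  obtain ⟨z, rfl⟩ := exists_toR hx
  have : A1 (toR z) = ![((z 0 : ℤ) : ℝ), (z 2 - z 0 - z 1 : ℤ), (z 1 : ℤ)] := by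
    ext i; fin_cases i <;> simp [A1, toR]
  rw [this]
  exact isInt_vec _ _ _

theorem isInt_A2 (x : Sp 2) (hx : IsInt x) : IsInt (A2 x) := by
  obtain ⟨z, rfl⟩ := exists_toR hx
  have : A2 (toR z) = ![((z 0 : ℤ) : ℝ), (z 1 : ℤ), (z 2 - z 0 - z 1 : ℤ)] := by
    ext i; fin_cases i <;> simp [A2, toR]
  rw [this]
  exact isInt_vec _ _ _

theorem isInt_A0s (x : Sp 2) (hx : IsInt x) : IsInt (A0.symm x) := by
  obtain ⟨z, rfl⟩ := exists_toR hx
  have : A0.symm (toR z) = ![((z 1 : ℤ) : ℝ), (z 2 : ℤ), (z 0 + z 1 + z 2 : ℤ)] := by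
    ext i; fin_cases i <;> simp [A0, toR]
  rw [this]
  exact isInt_vec _ _ _

theorem isInt_A1s (x : Sp 2) (hx : IsInt x) : IsInt (A1.symm x) := by
  obtain ⟨z, rfl⟩ := exists_toR hx
  have : A1.symm (toR z) = ![((z 0 : ℤ) : ℝ), (z 2 : ℤ), (z 0 + z 1 + z 2 : ℤ)] := by
    ext i; fin_cases i <;> simp [A1, toR]
  rw [this]
  exact isInt_vec _ _ _

theorem isInt_A2s (x : Sp 2) (hx : IsInt x) : IsInt (A2.symm x) := by
  obtain ⟨z, rfl⟩ := exists_toR hx
  have : A2.symm (toR z) = ![((z 0 : ℤ) : ℝ), (z 1 : ℤ), (z 0 + z 1 + z 2 : ℤ)] := by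
    ext i; fin_cases i <;> simp [A2, toR]
  rw [this]
  exact isInt_vec _ _ _

/-- the six possible points -/
theorem six {Z : Finset (Fin 3 → ℤ)} (hZ : Unimod (n := 2) Z) (z : Fin 3 → ℤ) (hz : z ∈ Z) :
    z = ![1, 0, 0] ∨ z = ![0, 1, 0] ∨ z = ![0, 0, 1] ∨ z = ![-1, 1, 1] ∨ z = ![1, -1, 1] ∨
      z = ![1, 1, -1] := by
  have h0 := hZ.coord hz 0
  have h1 := hZ.coord hz 1
  have h2 := hZ.coord hz 2
  have hs : z 0 + z 1 + z 2 = 1 := by
    have := hZ.2.1 z hz
    rwa [Fin.sum_univ_three] at this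
  rw [abs_le] at h0 h1 h2
  have hext : ∀ a b c : ℤ, z 0 = a → z 1 = b → z 2 = c → z = ![a, b, c] := by
    intro a b c ha hb hc
    ext i
    fin_cases i
    · exact ha
    · exact hb
    · exact hc
  by_cases c0 : z 0 = -1
  · right; right; right; left
    exact hext _ _ _ c0 (by omega) (by omega)
  by_cases c1 : z 1 = -1
  · right; right; right; right; left
    exact hext _ _ _ (by omega) c1 (by omega)
  by_cases c2 : z 2 = -1
  · right; right; right; right; right
    exact hext _ _ _ (by omega) (by omega) c2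
  by_cases d0 : z 0 = 1
  · left
    exact hext _ _ _ d0 (by omega) (by omega)
  by_cases d1 : z 1 = 1
  · right; left
    exact hext _ _ _ (by omega) d1 (by omega)
  · right; right; left
    exact hext _ _ _ (by omega) (by omega) (by omega)

theorem e_mem {Z : Finset (Fin 3 → ℤ)} (hZ : Unimod (n := 2) Z) :
    (![1, 0, 0] : Fin 3 → ℤ) ∈ Z ∧ (![0, 1, 0] : Fin 3 → ℤ) ∈ Z ∧
      (![0, 0, 1] : Fin 3 → ℤ) ∈ Z := by
  have h0 : (![1, 0, 0] : Fin 3 → ℤ) = Pi.single 0 1 := by decide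
  have h1 : (![0, 1, 0] : Fin 3 → ℤ) = Pi.single 1 1 := by decide
  have h2 : (![0, 0, 1] : Fin 3 → ℤ) = Pi.single 2 1 := by decide
  rw [h0, h1, h2]
  exact ⟨hZ.1 0, hZ.1 1, hZ.1 2⟩

theorem not01 {Z : Finset (Fin 3 → ℤ)} (hZ : Unimod (n := 2) Z)
    (h0 : (![-1, 1, 1] : Fin 3 → ℤ) ∈ Z) (h1 : (![1, -1, 1] : Fin 3 → ℤ) ∈ Z) : False := by
  have := hZ.2.2.2 ![![-1, 1, 1], ![1, -1, 1], ![1, 0, 0]] (by
    intro i
    fin_cases i
    · exact h0
    · exact h1
    · exact (e_mem hZ).1)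
  revert this
  decide

theorem not02 {Z : Finset (Fin 3 → ℤ)} (hZ : Unimod (n := 2) Z)
    (h0 : (![-1, 1, 1] : Fin 3 → ℤ) ∈ Z) (h1 : (![1, 1, -1] : Fin 3 → ℤ) ∈ Z) : False := by
  have := hZ.2.2.2 ![![-1, 1, 1], ![1, 1, -1], ![1, 0, 0]] (by
    intro i
    fin_cases i
    · exact h0
    · exact h1
    · exact (e_mem hZ).1)
  revert this
  decide

theorem not12 {Z : Finset (Fin 3 → ℤ)} (hZ : Unimod (n := 2) Z)
    (h0 : (![1, -1, 1] : Fin 3 → ℤ) ∈ Z) (h1 : (![1, 1, -1] : Fin 3 → ℤ) ∈ Z) : False := by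
  have := hZ.2.2.2 ![![1, -1, 1], ![1, 1, -1], ![0, 1, 0]] (by
    intro i
    fin_cases i
    · exact h0
    · exact h1
    · exact (e_mem hZ).2.1)
  revert this
  decide

theorem a0_0 : A0 (![0, 0, 1] : Sp 2) = toR (![1, 0, 0] : Fin 3 → ℤ) := by
  ext i; fin_cases i <;> simp [A0, toR]

theorem a0_1 : A0 (![1, 0, 1] : Sp 2) = toR (![0, 1, 0] : Fin 3 → ℤ) := by
  ext i; fin_cases i <;> simp [A0, toR]

theorem a0_2 : A0 (![0, 1, 1] : Sp 2) = toR (![0, 0, 1] : Fin 3 → ℤ) := by
  ext i; fin_cases i <;> simp [A0, toR]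

theorem a0_3 : A0 (![1, 1, 1] : Sp 2) = toR (![-1, 1, 1] : Fin 3 → ℤ) := by
  ext i; fin_cases i <;> simp [A0, toR]

theorem a1_0 : A1 (![0, 0, 1] : Sp 2) = toR (![0, 1, 0] : Fin 3 → ℤ) := by
  ext i; fin_cases i <;> simp [A1, toR]

theorem a1_1 : A1 (![1, 0, 1] : Sp 2) = toR (![1, 0, 0] : Fin 3 → ℤ) := by
  ext i; fin_cases i <;> simp [A1, toR]

theorem a1_2 : A1 (![0, 1, 1] : Sp 2) = toR (![0, 0, 1] : Fin 3 → ℤ) := by
  ext i; fin_cases i <;> simp [A1, toR]

theorem a1_3 : A1 (![1, 1, 1] : Sp 2) = toR (![1, -1, 1] : Fin 3 → ℤ) := by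
  ext i; fin_cases i <;> simp [A1, toR]

theorem a2_0 : A2 (![0, 0, 1] : Sp 2) = toR (![0, 0, 1] : Fin 3 → ℤ) := by
  ext i; fin_cases i <;> simp [A2, toR]

theorem a2_1 : A2 (![1, 0, 1] : Sp 2) = toR (![1, 0, 0] : Fin 3 → ℤ) := by
  ext i; fin_cases i <;> simp [A2, toR]

theorem a2_2 : A2 (![0, 1, 1] : Sp 2) = toR (![0, 1, 0] : Fin 3 → ℤ) := by
  ext i; fin_cases i <;> simp [A2, toR]

theorem a2_3 : A2 (![1, 1, 1] : Sp 2) = toR (![1, 1, -1] : Fin 3 → ℤ) := by
  ext i; fin_cases i <;> simp [A2, toR]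

/-- For every measure `μ` on the space of two-dimensional continued fractions that is invariant
under all linear automorphisms of `ℝ³` (such as a Möbius measure) the relative frequency of an
arbitrary polytope with integer vertices is at most that of the unit triangle `A₁` or at most that
of the unit square `B₁`. -/
theorem result [MeasurableSpace (CF 2)] (μ : Measure (CF 2)) (hμ : Invariant μ)
    (F : Set (Sp 2)) (hF : IsLatticePolytope F) :
    μ (withFace F) ≤
      max (μ (withFace (convexHull ℝ {![0, 0, 1], ![1, 0, 1], ![0, 1, 1]})))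
        (μ (withFace (convexHull ℝ {![0, 0, 1], ![1, 0, 1], ![1, 1, 1], ![0, 1, 1]}))) := by
  obtain ⟨Z, hZ, hle⟩ := reduction (by norm_num) hμ hF
  refine hle.trans ?_
  by_cases m0 : (![-1, 1, 1] : Fin 3 → ℤ) ∈ Z
  · skip
    refine (measure_transfer hμ hZ A0 isInt_A0 isInt_A0s ?_).trans (le_max_right _ _)
    intro x
    simp only [Set.mem_insert_iff, Set.mem_singleton_iff]
    constructor
    · rintro (rfl | rfl | rfl | rfl)
      · exact ⟨by simpa using isInt_vec 0 0 1, _, (e_mem hZ).1, a0_0⟩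
      · exact ⟨by simpa using isInt_vec 1 0 1, _, (e_mem hZ).2.1, a0_1⟩
      · exact ⟨by simpa using isInt_vec 1 1 1, _, m0, a0_3⟩
      · exact ⟨by simpa using isInt_vec 0 1 1, _, (e_mem hZ).2.2, a0_2⟩
    · rintro ⟨_, z, hz, hx⟩
      rcases six hZ z hz with h | h | h | h | h | h
      · subst h
        left
        exact A0.injective (hx.trans a0_0.symm)
      · subst h
        right; left
        exact A0.injective (hx.trans a0_1.symm)
      · subst h
        right; right; right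
        exact A0.injective (hx.trans a0_2.symm)
      · subst h
        right; right; left
        exact A0.injective (hx.trans a0_3.symm)
      · exact (not01 hZ m0 (h ▸ hz)).elim
      · exact (not02 hZ m0 (h ▸ hz)).elim
  by_cases m1 : (![1, -1, 1] : Fin 3 → ℤ) ∈ Z
  · skip
    refine (measure_transfer hμ hZ A1 isInt_A1 isInt_A1s ?_).trans (le_max_right _ _)
    intro x
    simp only [Set.mem_insert_iff, Set.mem_singleton_iff]
    constructor
    · rintro (rfl | rfl | rfl | rfl)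
      · exact ⟨by simpa using isInt_vec 0 0 1, _, (e_mem hZ).2.1, a1_0⟩
      · exact ⟨by simpa using isInt_vec 1 0 1, _, (e_mem hZ).1, a1_1⟩
      · exact ⟨by simpa using isInt_vec 1 1 1, _, m1, a1_3⟩
      · exact ⟨by simpa using isInt_vec 0 1 1, _, (e_mem hZ).2.2, a1_2⟩
    · rintro ⟨_, z, hz, hx⟩
      rcases six hZ z hz with h | h | h | h | h | h
      · subst h
        right; left
        exact A1.injective (hx.trans a1_1.symm)
      · subst h
        left
        exact A1.injective (hx.trans a1_0.symm)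
      · subst h
        right; right; right
        exact A1.injective (hx.trans a1_2.symm)
      · exact (not01 hZ (h ▸ hz) m1).elim
      · subst h
        right; right; left
        exact A1.injective (hx.trans a1_3.symm)
      · exact (not12 hZ m1 (h ▸ hz)).elim
  by_cases m2 : (![1, 1, -1] : Fin 3 → ℤ) ∈ Z
  · skip
    refine (measure_transfer hμ hZ A2 isInt_A2 isInt_A2s ?_).trans (le_max_right _ _)
    intro x
    simp only [Set.mem_insert_iff, Set.mem_singleton_iff]
    constructor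
    · rintro (rfl | rfl | rfl | rfl)
      · exact ⟨by simpa using isInt_vec 0 0 1, _, (e_mem hZ).2.2, a2_0⟩
      · exact ⟨by simpa using isInt_vec 1 0 1, _, (e_mem hZ).1, a2_1⟩
      · exact ⟨by simpa using isInt_vec 1 1 1, _, m2, a2_3⟩
      · exact ⟨by simpa using isInt_vec 0 1 1, _, (e_mem hZ).2.1, a2_2⟩
    · rintro ⟨_, z, hz, hx⟩
      rcases six hZ z hz with h | h | h | h | h | h
      · subst h
        right; left
        exact A2.injective (hx.trans a2_1.symm)
      · subst h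
        right; right; right
        exact A2.injective (hx.trans a2_2.symm)
      · subst h
        left
        exact A2.injective (hx.trans a2_0.symm)
      · exact (not02 hZ (h ▸ hz) m2).elim
      · exact (not12 hZ (h ▸ hz) m2).elim
      · subst h
        right; right; left
        exact A2.injective (hx.trans a2_3.symm)
  · skip
    refine (measure_transfer hμ hZ A0 isInt_A0 isInt_A0s ?_).trans (le_max_left _ _)
    intro x
    simp only [Set.mem_insert_iff, Set.mem_singleton_iff]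
    constructor
    · rintro (rfl | rfl | rfl)
      · exact ⟨by simpa using isInt_vec 0 0 1, _, (e_mem hZ).1, a0_0⟩
      · exact ⟨by simpa using isInt_vec 1 0 1, _, (e_mem hZ).2.1, a0_1⟩
      · exact ⟨by simpa using isInt_vec 0 1 1, _, (e_mem hZ).2.2, a0_2⟩
    · rintro ⟨_, z, hz, hx⟩
      rcases six hZ z hz with h | h | h | h | h | h
      · subst h
        left
        exact A0.injective (hx.trans a0_0.symm)
      · subst h
        right; left
        exact A0.injective (hx.trans a0_1.symm)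
      · subst h
        right; right
        exact A0.injective (hx.trans a0_2.symm)
      · exact absurd (h ▸ hz) m0
      · exact absurd (h ▸ hz) m1
      · exact absurd (h ▸ hz) m2

end Pool.Agent.Results.MP_8a8f75_nt.TwoDim
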